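import Mathlib
import Pool.Agent.Y871.BD.Fin2

/-! Roots modulo primes of almost all translates. -/

namespace Pool.Agent.Y871.SZ
open Finset Polynomial
open Pool.Agent.H373R2.T7 Pool.Agent.Y871.BD

lemma range_shift (f : ℕ → ℝ) (A : ℕ) : ∑ k ∈ Icc 1 A, f k = ∑ j ∈ range A, f (j + 1) := by
  rw [range_eq_Ico, sum_Ico_add' f 0 A 1]
  rfl

/-- correlations over an interval -/
lemma cross (X : ℕ → ℕ → ℝ) (hper : ∀ p n, X p n = X p (n % p)) (p p' : ℕ) (hp : p.Prime) (hp' : p'.Prime) (hne : p ≠ p')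
    (hm : ∑ m ∈ range p, X p m = 0) (c : ℝ) (hc : ∀ n, |X p n| ≤ c) (hc' : ∀ n, |X p' n| ≤ c) (A : ℕ) :
    ∑ k ∈ range A, X p k * X p' k ≤ c ^ 2 * (p * p') := by
  have hc0 : 0 ≤ c := (abs_nonneg _).trans (hc 0)
  have h1 : ∑ k ∈ range (p * p' * (A / (p * p'))), X p k * X p' k = 0 := by
    have h2 := crt_sum X hper {p, p'} (by
      intro q hq
      rw [mem_insert, mem_singleton] at hq
      rcases hq with rfl | rfl <;> assumption) (p * p' * (A / (p * p'))) (by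
      rw [prod_pair hne]
      exact dvd_mul_right _ _)
    have h3 : ∀ b, ∏ q ∈ ({p, p'} : Finset ℕ), X q b = X p b * X p' b := fun b => prod_pair hne
    simp only [h3] at h2
    rw [h2, prod_pair hne, hm]
    ring
  conv_lhs => rw [← Nat.div_add_mod A (p * p')]
  rw [sum_range_add, h1, zero_add]
  have hv : A % (p * p') < p * p' := Nat.mod_lt _ (Nat.mul_pos hp.pos hp'.pos)
  calc ∑ x ∈ range (A % (p * p')), X p (p * p' * (A / (p * p')) + x) * X p' (p * p' * (A / (p * p')) + x)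
      ≤ ∑ _x ∈ range (A % (p * p')), c ^ 2 := by
        apply sum_le_sum
        intro x _
        refine (le_abs_self _).trans ?_
        rw [abs_mul, sq]
        exact mul_le_mul (hc _) (hc' _) (abs_nonneg _) hc0
    _ = (A % (p * p') : ℕ) * c ^ 2 := by rw [sum_const, card_range, nsmul_eq_mul]
    _ ≤ (p * p' : ℕ) * c ^ 2 := mul_le_mul_of_nonneg_right (by exact_mod_cast hv.le) (sq_nonneg _)
    _ = c ^ 2 * (p * p') := by push_cast; ring

/-- second moments of sums over primes -/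
lemma var_gen (P : Finset ℕ) (hP : ∀ p ∈ P, p.Prime) (X : ℕ → ℕ → ℝ) (hper : ∀ p n, X p n = X p (n % p))
    (hm : ∀ p ∈ P, ∑ m ∈ range p, X p m = 0) (c : ℝ) (hc : ∀ p ∈ P, ∀ n, |X p n| ≤ c) (A : ℕ) :
    ∑ k ∈ range A, (∑ p ∈ P, X p k / p) ^ 2 ≤ A * c ^ 2 * ∑ p ∈ P, 1 / (p : ℝ) ^ 2 + c ^ 2 * (P.card : ℝ) ^ 2 := by
  classical
  have h1 : ∑ k ∈ range A, (∑ p ∈ P, X p k / p) ^ 2 =
      ∑ p ∈ P, ∑ p' ∈ P, (1 / ((p : ℝ) * p')) * ∑ k ∈ range A, X p k * X p' k := by
    have h2 : ∀ k, (∑ p ∈ P, X p k / p) ^ 2 = ∑ p ∈ P, ∑ p' ∈ P, (1 / ((p : ℝ) * p')) * (X p k * X p' k) := by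
      intro k
      rw [sq, sum_mul_sum]
      apply sum_congr rfl
      intro p _
      apply sum_congr rfl
      intro p' _
      ring
    rw [sum_congr rfl fun k _ => h2 k, sum_comm]
    apply sum_congr rfl
    intro p _
    rw [sum_comm]
    apply sum_congr rfl
    intro p' _
    rw [mul_sum]
  rw [h1]
  have h3 : ∀ p ∈ P, ∑ p' ∈ P, (1 / ((p : ℝ) * p')) * ∑ k ∈ range A, X p k * X p' k ≤
      A * c ^ 2 * (1 / (p : ℝ) ^ 2) + P.card * c ^ 2 := by
    intro p hp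
    have hp0 : (0 : ℝ) < p := by exact_mod_cast (hP p hp).pos
    have hc0 : 0 ≤ c := (abs_nonneg _).trans (hc p hp 0)
    rw [← add_sum_erase P _ hp]
    apply add_le_add
    · have h4 : ∑ k ∈ range A, X p k * X p k ≤ A * c ^ 2 := by
        calc ∑ k ∈ range A, X p k * X p k ≤ ∑ _k ∈ range A, c ^ 2 := by
              apply sum_le_sum
              intro k _
              rw [← sq, ← sq_abs]
              exact pow_le_pow_left₀ (abs_nonneg _) (hc p hp k) 2
          _ = A * c ^ 2 := by rw [sum_const, card_range, nsmul_eq_mul]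
      calc (1 / ((p : ℝ) * p)) * ∑ k ∈ range A, X p k * X p k ≤ (1 / ((p : ℝ) * p)) * (A * c ^ 2) :=
            mul_le_mul_of_nonneg_left h4 (by positivity)
        _ = _ := by rw [← sq]; ring
    · calc ∑ p' ∈ P.erase p, (1 / ((p : ℝ) * p')) * ∑ k ∈ range A, X p k * X p' k
          ≤ ∑ _p' ∈ P.erase p, c ^ 2 := by
            apply sum_le_sum
            intro p' hp'
            rw [mem_erase] at hp'
            have hp0' : (0 : ℝ) < p' := by exact_mod_cast (hP p' hp'.2).pos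
            have h5 := cross X hper p p' (hP p hp) (hP p' hp'.2) (fun h => hp'.1 h.symm) (hm p hp) c (hc p hp) (hc p' hp'.2) A
            calc (1 / ((p : ℝ) * p')) * ∑ k ∈ range A, X p k * X p' k ≤ (1 / ((p : ℝ) * p')) * (c ^ 2 * (p * p')) :=
                  mul_le_mul_of_nonneg_left h5 (by positivity)
              _ = c ^ 2 := by field_simp
        _ = ((P.erase p).card : ℝ) * c ^ 2 := by rw [sum_const, nsmul_eq_mul]
        _ ≤ P.card * c ^ 2 := mul_le_mul_of_nonneg_right (by exact_mod_cast card_le_card (erase_subset _ _)) (sq_nonneg _)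
  refine (sum_le_sum h3).trans (le_of_eq ?_)
  rw [sum_add_distrib, ← mul_sum, sum_const, nsmul_eq_mul]
  ring

/-- the number of the roots of `f + k` modulo `p` -/
def rho (f : ℤ[X]) (k p : ℕ) : ℕ := ((range p).filter (fun n : ℕ => (p : ℤ) ∣ f.eval (n : ℤ) + k)).card

lemma dvd_mod (a : ℤ) (p k : ℕ) : (p : ℤ) ∣ a + k ↔ (p : ℤ) ∣ a + (k % p : ℕ) := by
  have h : (a + k) - (a + (k % p : ℕ)) = (p : ℤ) * (k / p : ℕ) := by
    have := Nat.mod_add_div k p
    have h2 : (k : ℤ) = (k % p : ℕ) + (p : ℤ) * (k / p : ℕ) := by exact_mod_cast this.symm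
    linarith
  exact Int.dvd_iff_dvd_of_dvd_sub ⟨_, h⟩

lemma rho_per (f : ℤ[X]) (k p : ℕ) : rho f k p = rho f (k % p) p := by
  unfold rho
  congr 1
  apply filter_congr
  intro n _
  exact dvd_mod _ _ _

/-- one class for every integer -/
lemma one_class (a : ℤ) (p : ℕ) (hp : 0 < p) : ∑ k ∈ range p, (if (p : ℤ) ∣ a + k then (1 : ℝ) else 0) = 1 := by
  have hpz : (0 : ℤ) < p := by exact_mod_cast hp
  set k0 : ℕ := ((-a) % p).toNat with hk0
  have h0 : ((k0 : ℕ) : ℤ) = (-a) % p := Int.toNat_of_nonneg (Int.emod_nonneg _ hpz.ne')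
  have h1 : k0 ∈ range p := by
    rw [mem_range]
    have := Int.emod_lt_of_pos (-a) hpz
    omega
  rw [← add_sum_erase _ _ h1]
  have h2 : (p : ℤ) ∣ a + k0 := by
    rw [h0]
    have := Int.emod_add_mul_ediv (-a) p
    exact ⟨-(-a / p), by linarith⟩
  have h3 : ∑ k ∈ (range p).erase k0, (if (p : ℤ) ∣ a + k then (1 : ℝ) else 0) = 0 := by
    apply sum_eq_zero
    intro k hk
    rw [mem_erase, mem_range] at hk
    rw [if_neg]
    intro h4
    have h5 : (p : ℤ) ∣ (k : ℤ) - k0 := by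
      have := dvd_sub h4 h2
      have e : a + (k : ℤ) - (a + k0) = k - k0 := by ring
      rwa [e] at this
    have h6 : k0 < p := mem_range.1 h1
    have h7 : (k : ℤ) - k0 = 0 := by
      apply Int.eq_zero_of_abs_lt_dvd h5
      rw [abs_lt]
      constructor <;> omega
    apply hk.1
    omega
  rw [if_pos h2, h3, add_zero]

lemma rho_mean (f : ℤ[X]) (p : ℕ) (hp : 0 < p) : ∑ k ∈ range p, (rho f k p : ℝ) = p := by
  have h1 : ∀ k, (rho f k p : ℝ) = ∑ n ∈ range p, if (p : ℤ) ∣ f.eval (n : ℤ) + k then (1 : ℝ) else 0 := by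
    intro k
    unfold rho
    rw [card_filter]
    push_cast
    rfl
  rw [sum_congr rfl fun k _ => h1 k, sum_comm, sum_congr rfl fun (n : ℕ) _ => one_class (f.eval (n : ℤ)) p hp, sum_const,
    card_range, nsmul_eq_mul, mul_one]

/-- the number of `k ≤ A` in a class -/
lemma class_count (a : ℤ) (p A : ℕ) (hp : 0 < p) (hpA : p ≤ A) :
    ∑ k ∈ Icc 1 A, (if (p : ℤ) ∣ a + k then (1 : ℝ) else 0) ≤ 2 * A / p := by
  have hp0 : (0 : ℝ) < p := by exact_mod_cast hp
  have h1 : ∑ k ∈ Icc 1 A, (if (p : ℤ) ∣ a + k then (1 : ℝ) else 0) ≤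
      ∑ j ∈ range (p * (A / p + 1)), (if (p : ℤ) ∣ (a + 1) + j then (1 : ℝ) else 0) := by
    rw [range_shift (fun k => if (p : ℤ) ∣ a + k then (1 : ℝ) else 0)]
    have h2 : range A ⊆ range (p * (A / p + 1)) := by
      intro j hj
      rw [mem_range] at hj ⊢
      exact hj.trans (Nat.lt_mul_div_succ A hp)
    refine le_trans (le_of_eq ?_) (sum_le_sum_of_subset_of_nonneg h2 (fun _ _ _ => by split_ifs <;> norm_num))
    apply sum_congr rfl
    intro j _
    have e : a + ((j + 1 : ℕ) : ℤ) = (a + 1) + j := by push_cast; ring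
    simp only [e]
  refine h1.trans ?_
  rw [sum_blocks]
  have h3 : ∀ s : ℕ, ∑ t ∈ range p, (if (p : ℤ) ∣ (a + 1) + ((p * s + t : ℕ) : ℤ) then (1 : ℝ) else 0) = 1 := by
    intro s
    refine Eq.trans ?_ (one_class (a + 1) p hp)
    apply sum_congr rfl
    intro t _
    have h4 := dvd_mod (a + 1) p (p * s + t)
    have h5 := dvd_mod (a + 1) p t
    have h6 : (p * s + t) % p = t % p := Nat.mul_add_mod_self_left _ _ _
    rw [h6, ← h5] at h4
    simp only [h4]
  rw [sum_congr rfl fun s _ => h3 s, sum_const, card_range, nsmul_eq_mul, mul_one]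
  have h4 : ((A / p : ℕ) : ℝ) ≤ (A : ℝ) / p := Nat.cast_div_le
  have h5 : (1 : ℝ) ≤ (A : ℝ) / p := by
    rw [le_div_iff₀ hp0, one_mul]
    exact_mod_cast hpA
  push_cast
  have h6 : 2 * (A : ℝ) / p = A / p + A / p := by ring
  rw [h6]
  linarith

/-- sums of `1 / p ^ 2` -/
lemma inv_sq_sum (z y : ℕ) (hz : 1 ≤ z) : ∑ p ∈ (Ioc z y).filter Nat.Prime, (1 : ℝ) / (p : ℝ) ^ 2 ≤ (1 : ℝ) / z := by
  rcases Nat.lt_or_ge y z with h | h
  · rw [Ioc_eq_empty (by omega), filter_empty, sum_empty]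
    positivity
  · have h1 := sum_Ioc_inv_sq_le_sub (α := ℝ) (k := z) (n := y) (by omega) h
    calc ∑ p ∈ (Ioc z y).filter Nat.Prime, (1 : ℝ) / (p : ℝ) ^ 2 ≤ ∑ p ∈ Ioc z y, (1 : ℝ) / (p : ℝ) ^ 2 :=
          sum_le_sum_of_subset_of_nonneg (filter_subset _ _) (fun _ _ _ => by positivity)
      _ = ∑ i ∈ Ioc z y, ((i : ℝ) ^ 2)⁻¹ := sum_congr rfl fun _ _ => one_div _
      _ ≤ (z : ℝ)⁻¹ - (y : ℝ)⁻¹ := h1
      _ ≤ (1 : ℝ) / z := by
        rw [one_div]
        have : (0 : ℝ) ≤ (y : ℝ)⁻¹ := by positivity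
        linarith

end Pool.Agent.Y871.SZ
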