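import Mathlib
import Pool.Agent.Y871.SZ.Avg

/-! Roots modulo primes of almost all systems of translates. -/

namespace Pool.Agent.Y871.SZ
open Finset Polynomial
open Pool.Agent.H373R2.T7 Pool.Agent.Y871.BD

/-- the box -/
def bx {r : ℕ} (A : Fin r → ℕ) : Finset (Fin r → ℕ) := Fintype.piFinset fun i => Icc 1 (A i)

lemma sum_fam {r : ℕ} (A : Fin r → ℕ) (h : Fin r → ℕ → ℝ) (γ : Fin r → ℝ) (h0 : ∀ l k, 0 ≤ h l k)
    (hγ : ∀ l, ∑ k ∈ Icc 1 (A l), h l k ≤ γ l * A l) :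
    ∑ a ∈ bx A, ∏ l, h l (a l) ≤ (∏ l, γ l) * ∏ l, (A l : ℝ) := by
  unfold bx
  rw [← prod_univ_sum, ← prod_mul_distrib]
  exact prod_le_prod (fun l _ => sum_nonneg fun k _ => h0 l k) (fun l _ => hγ l)

lemma sum_two {r : ℕ} (A : Fin r → ℕ) (i j : Fin r) (hij : i ≠ j) (u v : ℕ → ℝ) (hu0 : ∀ k, 0 ≤ u k) (hv0 : ∀ k, 0 ≤ v k)
    (α β : ℝ) (hu : ∑ k ∈ Icc 1 (A i), u k ≤ α * A i) (hv : ∑ k ∈ Icc 1 (A j), v k ≤ β * A j) :
    ∑ a ∈ bx A, u (a i) * v (a j) ≤ α * β * ∏ l, (A l : ℝ) := by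
  have h1 := sum_fam A (fun l k => (if l = i then u k else 1) * (if l = j then v k else 1))
    (fun l => (if l = i then α else 1) * (if l = j then β else 1)) (fun l k => by
      apply mul_nonneg <;> split_ifs <;> first | exact hu0 k | exact hv0 k | exact zero_le_one) (fun l => by
      by_cases h1 : l = i
      · subst h1
        simp only [if_pos rfl, if_neg hij, mul_one, reduceIte]
        exact hu
      · by_cases h2 : l = j
        · subst h2
          simp only [if_neg h1, one_mul, reduceIte]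
          exact hv
        · simp only [if_neg h1, if_neg h2, one_mul, sum_const, nsmul_eq_mul, mul_one, Nat.card_Icc, Nat.add_sub_cancel]
          exact le_rfl)
  have h2 : ∀ a : Fin r → ℕ, ∏ l, ((if l = i then u (a l) else 1) * (if l = j then v (a l) else 1)) = u (a i) * v (a j) := by
    intro a
    rw [prod_mul_distrib]
    congr 1
    · rw [prod_ite_eq' univ i (fun l => u (a l)), if_pos (mem_univ _)]
    · rw [prod_ite_eq' univ j (fun l => v (a l)), if_pos (mem_univ _)]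
  simp only [h2] at h1
  refine h1.trans (le_of_eq ?_)
  rw [prod_mul_distrib, prod_ite_eq' univ i (fun _ => α), prod_ite_eq' univ j (fun _ => β), if_pos (mem_univ _),
    if_pos (mem_univ _)]

lemma sum_one {r : ℕ} (A : Fin r → ℕ) (i : Fin r) (u : ℕ → ℝ) (hu0 : ∀ k, 0 ≤ u k)
    (α : ℝ) (hu : ∑ k ∈ Icc 1 (A i), u k ≤ α * A i) : ∑ a ∈ bx A, u (a i) ≤ α * ∏ l, (A l : ℝ) := by
  have h1 := sum_fam A (fun l k => (if l = i then u k else 1)) (fun l => (if l = i then α else 1)) (fun l k => by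
      split_ifs
      · exact hu0 k
      · exact zero_le_one) (fun l => by
      by_cases h1 : l = i
      · subst h1
        simp only [reduceIte]
        exact hu
      · simp only [if_neg h1, one_mul, sum_const, nsmul_eq_mul, mul_one, Nat.card_Icc, Nat.add_sub_cancel]
        exact le_rfl)
  have h2 : ∀ a : Fin r → ℕ, ∏ l, (if l = i then u (a l) else 1) = u (a i) := by
    intro a
    rw [prod_ite_eq' univ i (fun l => u (a l)), if_pos (mem_univ _)]
  simp only [h2] at h1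
  refine h1.trans (le_of_eq ?_)
  rw [prod_ite_eq' univ i (fun _ => α), if_pos (mem_univ _)]

/-- the primes -/
def Pz (z y : ℕ) : Finset ℕ := (Ioc z y).filter Nat.Prime

lemma mem_Pz (z y p : ℕ) : p ∈ Pz z y ↔ (z < p ∧ p ≤ y) ∧ p.Prime := by
  unfold Pz
  rw [mem_filter, mem_Ioc]

lemma Pz_card (z y : ℕ) : (Pz z y).card ≤ y := by
  unfold Pz
  refine (card_filter_le _ _).trans ?_
  rw [Nat.card_Ioc]
  omega

/-- the deviation -/
noncomputable def Td (f : ℤ[X]) (z y k : ℕ) : ℝ := ∑ p ∈ Pz z y, ((rho f k p : ℝ) - 1) / p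

/-- the common roots -/
def com (f g : ℤ[X]) (k k' p : ℕ) : ℕ :=
  ((range p).filter (fun n : ℕ => (p : ℤ) ∣ f.eval (n : ℤ) + k ∧ (p : ℤ) ∣ g.eval (n : ℤ) + k')).card

/-- the sum of the common roots -/
noncomputable def Od (f g : ℤ[X]) (z y k k' : ℕ) : ℝ := ∑ p ∈ Pz z y, (com f g k k' p : ℝ) / p

lemma rho_le {r : ℕ} (F : Fin r → ℤ[X]) (hd : ∀ i, 1 ≤ (F i).natDegree) (hl : ∀ i, 0 < (F i).leadingCoeff)
    (i : Fin r) (k p : ℕ) (hp : p.Prime) : rho (F i) k p ≤ sysC F := by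
  classical
  have h1 := (sysQ_per F hd hl (s1 r) (fun i => Or.inl rfl) (fun _ => k)).few p hp
  refine le_trans ?_ h1
  unfold rho nuB
  apply card_le_card
  intro n hn
  rw [mem_filter] at hn ⊢
  refine ⟨hn.1, i, ?_⟩
  rw [vl_eq]
  exact hn.2

lemma Td_sq {r : ℕ} (F : Fin r → ℤ[X]) (hd : ∀ i, 1 ≤ (F i).natDegree) (hl : ∀ i, 0 < (F i).leadingCoeff)
    (i : Fin r) (z y A : ℕ) (hz : 1 ≤ z) (hA : y ^ 2 * z ≤ A) :
    ∑ k ∈ Icc 1 A, Td (F i) z y k ^ 2 ≤ (2 * (sysC F : ℝ) ^ 2 / z) * A := by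
  rw [range_shift (fun k => Td (F i) z y k ^ 2)]
  have hz0 : (0 : ℝ) < z := by exact_mod_cast hz
  have hP : ∀ p ∈ Pz z y, p.Prime := fun p hp => ((mem_Pz z y p).1 hp).2
  have hper : ∀ p n : ℕ, (rho (F i) (n + 1) p : ℝ) - 1 = (rho (F i) (n % p + 1) p : ℝ) - 1 := by
    intro p n
    rw [rho_per (F i) (n + 1) p, rho_per (F i) (n % p + 1) p, Nat.mod_add_mod]
  have hmean : ∀ p ∈ Pz z y, ∑ m ∈ range p, ((rho (F i) (m + 1) p : ℝ) - 1) = 0 := by
    intro p hp
    have h1 := sum_res p (hP p hp).pos (fun k => (rho (F i) k p : ℝ) - 1) (fun n => by rw [rho_per (F i) n p]) 1 1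
      (Nat.coprime_one_right _)
    have h2 : ∑ m ∈ range p, ((rho (F i) (m + 1) p : ℝ) - 1) = ∑ m ∈ range p, ((rho (F i) (1 + 1 * m) p : ℝ) - 1) := by
      apply sum_congr rfl
      intro m _
      rw [one_mul, add_comm]
    rw [h2, h1, sum_sub_distrib, rho_mean (F i) p (hP p hp).pos, sum_const, card_range, nsmul_eq_mul, mul_one, sub_self]
  have hcb : ∀ p ∈ Pz z y, ∀ n, |(rho (F i) (n + 1) p : ℝ) - 1| ≤ sysC F := by
    intro p hp n
    have h1 := rho_le F hd hl i (n + 1) p (hP p hp)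
    have h2 : (rho (F i) (n + 1) p : ℝ) ≤ sysC F := by exact_mod_cast h1
    have h3 : (0 : ℝ) ≤ rho (F i) (n + 1) p := Nat.cast_nonneg _
    have h4 : (1 : ℝ) ≤ sysC F := by
      have : 1 ≤ sysC F := by unfold sysC; omega
      exact_mod_cast this
    rw [abs_le]
    constructor <;> linarith
  have h1 := var_gen (Pz z y) hP (fun p n => (rho (F i) (n + 1) p : ℝ) - 1) hper hmean (sysC F) hcb A
  unfold Td
  refine h1.trans ?_
  have h2 : ∑ p ∈ Pz z y, (1 : ℝ) / (p : ℝ) ^ 2 ≤ (1 : ℝ) / z := inv_sq_sum z y hz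
  have h3 : ((Pz z y).card : ℝ) ^ 2 ≤ (y : ℝ) ^ 2 := pow_le_pow_left₀ (Nat.cast_nonneg _) (by exact_mod_cast Pz_card z y) 2
  have h4 : (y : ℝ) ^ 2 ≤ A / z := by
    rw [le_div_iff₀ hz0]
    exact_mod_cast hA
  have hc2 : (0 : ℝ) ≤ (sysC F : ℝ) ^ 2 := by positivity
  calc (A : ℝ) * (sysC F : ℝ) ^ 2 * ∑ p ∈ Pz z y, 1 / (p : ℝ) ^ 2 + (sysC F : ℝ) ^ 2 * ((Pz z y).card : ℝ) ^ 2
      ≤ A * (sysC F : ℝ) ^ 2 * (1 / z) + (sysC F : ℝ) ^ 2 * (A / z) :=
        add_le_add (mul_le_mul_of_nonneg_left h2 (by positivity)) (mul_le_mul_of_nonneg_left (h3.trans h4) hc2)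
    _ = _ := by ring

lemma Od_sum {r : ℕ} (F : Fin r → ℤ[X]) (A : Fin r → ℕ) (i j : Fin r) (hij : i ≠ j) (z y : ℕ) (hz : 1 ≤ z)
    (hA : ∀ i, y ≤ A i) : ∑ a ∈ bx A, Od (F i) (F j) z y (a i) (a j) ≤ (4 / z) * ∏ l, (A l : ℝ) := by
  have hP : ∀ p ∈ Pz z y, p.Prime := fun p hp => ((mem_Pz z y p).1 hp).2
  have hprod : (0 : ℝ) ≤ ∏ l, (A l : ℝ) := prod_nonneg fun _ _ => Nat.cast_nonneg _
  unfold Od
  rw [sum_comm]
  have h1 : ∀ p ∈ Pz z y, ∑ a ∈ bx A, (com (F i) (F j) (a i) (a j) p : ℝ) / p ≤ (4 * ∏ l, (A l : ℝ)) * ((1 : ℝ) / (p : ℝ) ^ 2) := by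
    intro p hp
    have hpp := hP p hp
    have hp0 : (0 : ℝ) < p := by exact_mod_cast hpp.pos
    have hpy : p ≤ y := ((mem_Pz z y p).1 hp).1.2
    have h2 : ∀ a : Fin r → ℕ, (com (F i) (F j) (a i) (a j) p : ℝ) = ∑ n ∈ range p,
        (if (p : ℤ) ∣ (F i).eval (n : ℤ) + (a i : ℕ) then (1 : ℝ) else 0) *
        (if (p : ℤ) ∣ (F j).eval (n : ℤ) + (a j : ℕ) then (1 : ℝ) else 0) := by
      intro a
      unfold com
      rw [card_filter]
      push_cast
      apply sum_congr rfl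
      intro n _
      by_cases h3 : (p : ℤ) ∣ (F i).eval (n : ℤ) + (a i : ℕ) <;> by_cases h4 : (p : ℤ) ∣ (F j).eval (n : ℤ) + (a j : ℕ) <;>
        simp [h3, h4]
    have h3 : ∑ a ∈ bx A, (com (F i) (F j) (a i) (a j) p : ℝ) ≤ p * ((2 / p) * (2 / p) * ∏ l, (A l : ℝ)) := by
      rw [sum_congr rfl fun a _ => h2 a, sum_comm]
      calc _ ≤ ∑ _n ∈ range p, ((2 / (p : ℝ)) * (2 / p) * ∏ l, (A l : ℝ)) := by
            apply sum_le_sum
            intro n _
            apply sum_two A i j hij (fun k => if (p : ℤ) ∣ (F i).eval (n : ℤ) + (k : ℕ) then (1 : ℝ) else 0)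
              (fun k => if (p : ℤ) ∣ (F j).eval (n : ℤ) + (k : ℕ) then (1 : ℝ) else 0)
            · intro k; split_ifs <;> norm_num
            · intro k; split_ifs <;> norm_num
            · have := class_count ((F i).eval (n : ℤ)) p (A i) hpp.pos (hpy.trans (hA i))
              refine this.trans (le_of_eq ?_)
              ring
            · have := class_count ((F j).eval (n : ℤ)) p (A j) hpp.pos (hpy.trans (hA j))
              refine this.trans (le_of_eq ?_)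
              ring
        _ = _ := by rw [sum_const, card_range, nsmul_eq_mul]
    rw [← sum_div, div_le_iff₀ hp0]
    refine h3.trans (le_of_eq ?_)
    field_simp
    ring
  calc _ ≤ ∑ p ∈ Pz z y, (4 * ∏ l, (A l : ℝ)) * ((1 : ℝ) / (p : ℝ) ^ 2) := sum_le_sum h1
    _ = (4 * ∏ l, (A l : ℝ)) * ∑ p ∈ Pz z y, (1 : ℝ) / (p : ℝ) ^ 2 := by rw [mul_sum]
    _ ≤ (4 * ∏ l, (A l : ℝ)) * ((1 : ℝ) / z) := mul_le_mul_of_nonneg_left (inv_sq_sum z y hz) (by positivity)
    _ = _ := by ring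

/-- the good vectors -/
def Gd {r : ℕ} (F : Fin r → ℤ[X]) (z y : ℕ) (a : Fin r → ℕ) : Prop :=
  (∀ i, -1 ≤ Td (F i) z y (a i)) ∧ ∀ i j, i ≠ j → Od (F i) (F j) z y (a i) (a j) ≤ 1

lemma nuB_low {r : ℕ} (F : Fin r → ℤ[X]) (a : Fin r → ℕ) (p : ℕ) :
    ∑ i, (rho (F i) (a i) p : ℝ) - ∑ i, ∑ j ∈ univ.erase i, (com (F i) (F j) (a i) (a j) p : ℝ) ≤
      nuB (sysQ F (s1 r) a) p := by
  classical
  set b : Fin r → ℕ → ℝ := fun i n => if (p : ℤ) ∣ (F i).eval (n : ℤ) + (a i : ℕ) then 1 else 0 with hb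
  have e1 : ∀ i, (rho (F i) (a i) p : ℝ) = ∑ n ∈ range p, b i n := by
    intro i
    unfold rho
    rw [card_filter]
    push_cast
    rfl
  have e2 : ∀ i j, (com (F i) (F j) (a i) (a j) p : ℝ) = ∑ n ∈ range p, b i n * b j n := by
    intro i j
    unfold com
    rw [card_filter]
    push_cast
    apply sum_congr rfl
    intro n _
    rw [hb]
    by_cases h3 : (p : ℤ) ∣ (F i).eval (n : ℤ) + (a i : ℕ) <;> by_cases h4 : (p : ℤ) ∣ (F j).eval (n : ℤ) + (a j : ℕ) <;>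
        simp [h3, h4]
  have e3 : (nuB (sysQ F (s1 r) a) p : ℝ) = ∑ n ∈ range p, if (∃ i, (p : ℤ) ∣ (F i).eval (n : ℤ) + (a i : ℕ)) then (1 : ℝ) else 0 := by
    unfold nuB
    rw [card_filter]
    push_cast
    apply sum_congr rfl
    intro n _
    unfold sysQ
    simp only [vl_eq]
    rfl
  have e4 : ∑ i, ∑ j ∈ univ.erase i, (com (F i) (F j) (a i) (a j) p : ℝ) =
      ∑ n ∈ range p, ∑ i, ∑ j ∈ univ.erase i, b i n * b j n := by
    have e5 : ∀ i, ∑ j ∈ univ.erase i, (com (F i) (F j) (a i) (a j) p : ℝ) =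
        ∑ n ∈ range p, ∑ j ∈ univ.erase i, b i n * b j n := by
      intro i
      rw [sum_congr rfl fun j _ => e2 i j, sum_comm]
    rw [sum_congr rfl fun i _ => e5 i, sum_comm]
  have e6 : ∑ i, (rho (F i) (a i) p : ℝ) = ∑ n ∈ range p, ∑ i, b i n := by
    rw [sum_congr rfl fun i _ => e1 i, sum_comm]
  rw [e3, e4, e6, ← sum_sub_distrib]
  apply sum_le_sum
  intro n _
  have h01 : ∀ i, b i n * b i n = b i n := by
    intro i
    rw [hb]
    dsimp only
    split_ifs <;> norm_num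
  have h1 : ∑ i, ∑ j ∈ univ.erase i, b i n * b j n = (∑ i, b i n) ^ 2 - ∑ i, b i n := by
    have h2 : ∀ i, ∑ j ∈ univ.erase i, b i n * b j n = b i n * (∑ j, b j n) - b i n := by
      intro i
      rw [← mul_sum, ← add_sum_erase univ (fun j => b j n) (mem_univ i), mul_add, h01]
      ring
    rw [sum_congr rfl fun i _ => h2 i, sum_sub_distrib, ← sum_mul, sq]
  rw [h1]
  by_cases h : ∃ i, (p : ℤ) ∣ (F i).eval (n : ℤ) + (a i : ℕ)
  · rw [if_pos h]
    nlinarith [sq_nonneg (∑ i, b i n - 1)]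
  · rw [if_neg h]
    push Not at h
    have h2 : ∑ i, b i n = 0 := by
      apply sum_eq_zero
      intro i _
      rw [hb]
      dsimp only
      rw [if_neg (h i)]
    rw [h2]
    norm_num

/-- the sum of the numbers of roots -/
lemma root_sum {r : ℕ} (F : Fin r → ℤ[X]) (a : Fin r → ℕ) (z y : ℕ) (h : Gd F z y a) :
    r * ∑ p ∈ Pz z y, (1 : ℝ) / p - r - r ^ 2 ≤ ∑ p ∈ Pz z y, (nuB (sysQ F (s1 r) a) p : ℝ) / p := by
  have h1 : ∑ p ∈ Pz z y, (∑ i, (rho (F i) (a i) p : ℝ) - ∑ i, ∑ j ∈ univ.erase i, (com (F i) (F j) (a i) (a j) p : ℝ)) / p ≤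
      ∑ p ∈ Pz z y, (nuB (sysQ F (s1 r) a) p : ℝ) / p := by
    apply sum_le_sum
    intro p _
    exact div_le_div_of_nonneg_right (nuB_low F a p) (Nat.cast_nonneg _)
  refine le_trans ?_ h1
  have h2 : ∑ p ∈ Pz z y, (∑ i, (rho (F i) (a i) p : ℝ) - ∑ i, ∑ j ∈ univ.erase i, (com (F i) (F j) (a i) (a j) p : ℝ)) / p =
      ∑ i, (Td (F i) z y (a i) + ∑ p ∈ Pz z y, (1 : ℝ) / p) - ∑ i, ∑ j ∈ univ.erase i, Od (F i) (F j) z y (a i) (a j) := by
    have e1 : ∀ i, Td (F i) z y (a i) + ∑ p ∈ Pz z y, (1 : ℝ) / p = ∑ p ∈ Pz z y, (rho (F i) (a i) p : ℝ) / p := by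
      intro i
      unfold Td
      rw [← sum_add_distrib]
      apply sum_congr rfl
      intro p _
      ring
    rw [sum_congr rfl fun i _ => e1 i, sum_comm]
    have e2 : ∑ i, ∑ j ∈ univ.erase i, Od (F i) (F j) z y (a i) (a j) =
        ∑ p ∈ Pz z y, ∑ i, ∑ j ∈ univ.erase i, (com (F i) (F j) (a i) (a j) p : ℝ) / p := by
      have e3 : ∀ i, ∑ j ∈ univ.erase i, Od (F i) (F j) z y (a i) (a j) =
          ∑ p ∈ Pz z y, ∑ j ∈ univ.erase i, (com (F i) (F j) (a i) (a j) p : ℝ) / p := by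
        intro i
        unfold Od
        rw [sum_comm]
      rw [sum_congr rfl fun i _ => e3 i, sum_comm]
    rw [e2, ← sum_sub_distrib]
    apply sum_congr rfl
    intro p _
    rw [sub_div, sum_div, sum_div]
    congr 1
    apply sum_congr rfl
    intro i _
    rw [sum_div]
  rw [h2]
  have h3 : ∑ i, (Td (F i) z y (a i) + ∑ p ∈ Pz z y, (1 : ℝ) / p) ≥ r * ∑ p ∈ Pz z y, (1 : ℝ) / p - r := by
    calc ∑ i, (Td (F i) z y (a i) + ∑ p ∈ Pz z y, (1 : ℝ) / p) ≥ ∑ _i : Fin r, (-1 + ∑ p ∈ Pz z y, (1 : ℝ) / p) :=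
          sum_le_sum fun i _ => add_le_add (h.1 i) le_rfl
      _ = _ := by
        rw [sum_const, card_univ, Fintype.card_fin, nsmul_eq_mul]
        ring
  have h4 : ∑ i, ∑ j ∈ univ.erase i, Od (F i) (F j) z y (a i) (a j) ≤ (r : ℝ) ^ 2 := by
    calc ∑ i, ∑ j ∈ univ.erase i, Od (F i) (F j) z y (a i) (a j) ≤ ∑ i : Fin r, ∑ _j ∈ univ.erase i, (1 : ℝ) :=
          sum_le_sum fun i _ => sum_le_sum fun j hj => h.2 i j (fun h' => (mem_erase.1 hj).1 h'.symm)
      _ ≤ ∑ _i : Fin r, (r : ℝ) := by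
          apply sum_le_sum
          intro i _
          rw [sum_const, nsmul_eq_mul, mul_one]
          have : (univ.erase i).card ≤ r := (card_erase_le).trans (by simp)
          exact_mod_cast this
      _ = (r : ℝ) ^ 2 := by rw [sum_const, card_univ, Fintype.card_fin, nsmul_eq_mul, sq]
  linarith

open Classical in
/-- most vectors are good -/
theorem bad_few {r : ℕ} (F : Fin r → ℤ[X]) (hd : ∀ i, 1 ≤ (F i).natDegree) (hl : ∀ i, 0 < (F i).leadingCoeff)
    (A : Fin r → ℕ) (z y : ℕ) (hz : 1 ≤ z) (hy : 1 ≤ y) (hA : ∀ i, y ^ 2 * z ≤ A i) :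
    (((bx A).filter (fun a => ¬ Gd F z y a)).card : ℝ) ≤
      ((r * (2 * (sysC F : ℝ) ^ 2) + 4 * r ^ 2) / z) * ∏ l, (A l : ℝ) := by
  have hAy : ∀ i, y ≤ A i := by
    intro i
    refine le_trans ?_ (hA i)
    have : y ^ 2 * z = y * (y * z) := by ring
    rw [this]
    exact Nat.le_mul_of_pos_right _ (Nat.mul_pos hy hz)
  have hprod : (0 : ℝ) ≤ ∏ l, (A l : ℝ) := prod_nonneg fun _ _ => Nat.cast_nonneg _
  have hz0 : (0 : ℝ) < z := by exact_mod_cast hz
  have hsub : (bx A).filter (fun a => ¬ Gd F z y a) ⊆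
      (univ.biUnion fun i : Fin r => (bx A).filter (fun a => 1 < Td (F i) z y (a i) ^ 2)) ∪
      (univ.biUnion fun i : Fin r => (univ.erase i).biUnion fun j => (bx A).filter (fun a => 1 < Od (F i) (F j) z y (a i) (a j))) := by
    intro a ha
    rw [mem_filter] at ha
    obtain ⟨ha1, ha2⟩ := ha
    unfold Gd at ha2
    rw [not_and_or] at ha2
    rcases ha2 with h | h
    · push Not at h
      obtain ⟨i, hi⟩ := h
      apply mem_union_left
      rw [mem_biUnion]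
      refine ⟨i, mem_univ _, mem_filter.2 ⟨ha1, ?_⟩⟩
      nlinarith
    · push Not at h
      obtain ⟨i, j, hij, hO⟩ := h
      apply mem_union_right
      rw [mem_biUnion]
      refine ⟨i, mem_univ _, ?_⟩
      rw [mem_biUnion]
      exact ⟨j, mem_erase.2 ⟨fun h' => hij h'.symm, mem_univ _⟩, mem_filter.2 ⟨ha1, hO⟩⟩
  have h1 : ∀ i : Fin r, (((bx A).filter (fun a => 1 < Td (F i) z y (a i) ^ 2)).card : ℝ) ≤
      (2 * (sysC F : ℝ) ^ 2 / z) * ∏ l, (A l : ℝ) := by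
    intro i
    apply markov (bx A) (fun a => Td (F i) z y (a i) ^ 2) (fun a _ => sq_nonneg _) 1 _ one_pos
    rw [one_mul]
    exact sum_one A i (fun k => Td (F i) z y k ^ 2) (fun _ => sq_nonneg _) _ (Td_sq F hd hl i z y (A i) hz (hA i))
  have h2 : ∀ i j : Fin r, i ≠ j → (((bx A).filter (fun a => 1 < Od (F i) (F j) z y (a i) (a j))).card : ℝ) ≤
      (4 / z) * ∏ l, (A l : ℝ) := by
    intro i j hij
    apply markov (bx A) (fun a => Od (F i) (F j) z y (a i) (a j)) (fun a _ => ?_) 1 _ one_pos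
    · rw [one_mul]
      exact Od_sum F A i j hij z y hz hAy
    · unfold Od
      exact sum_nonneg fun _ _ => by positivity
  have h3 : (((bx A).filter (fun a => ¬ Gd F z y a)).card : ℝ) ≤
      ∑ i : Fin r, (((bx A).filter (fun a => 1 < Td (F i) z y (a i) ^ 2)).card : ℝ) +
      ∑ i : Fin r, ∑ j ∈ univ.erase i, (((bx A).filter (fun a => 1 < Od (F i) (F j) z y (a i) (a j))).card : ℝ) := by
    have h4 := (card_le_card hsub).trans (card_union_le _ _)
    have h5 := card_biUnion_le (s := univ) (t := fun i : Fin r => (bx A).filter (fun a => 1 < Td (F i) z y (a i) ^ 2))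
    have h6 := card_biUnion_le (s := univ) (t := fun i : Fin r => (univ.erase i).biUnion fun j =>
      (bx A).filter (fun a => 1 < Od (F i) (F j) z y (a i) (a j)))
    have h7 : ∑ i : Fin r, ((univ.erase i).biUnion fun j => (bx A).filter (fun a => 1 < Od (F i) (F j) z y (a i) (a j))).card ≤
        ∑ i : Fin r, ∑ j ∈ univ.erase i, ((bx A).filter (fun a => 1 < Od (F i) (F j) z y (a i) (a j))).card :=
      sum_le_sum fun i _ => card_biUnion_le
    have h8 : ((bx A).filter (fun a => ¬ Gd F z y a)).card ≤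
      ∑ i : Fin r, ((bx A).filter (fun a => 1 < Td (F i) z y (a i) ^ 2)).card +
      ∑ i : Fin r, ∑ j ∈ univ.erase i, ((bx A).filter (fun a => 1 < Od (F i) (F j) z y (a i) (a j))).card := by omega
    exact_mod_cast h8
  refine h3.trans ?_
  have h4 : ∑ i : Fin r, (((bx A).filter (fun a => 1 < Td (F i) z y (a i) ^ 2)).card : ℝ) ≤
      r * ((2 * (sysC F : ℝ) ^ 2 / z) * ∏ l, (A l : ℝ)) := by
    refine (sum_le_sum fun i _ => h1 i).trans (le_of_eq ?_)
    rw [sum_const, card_univ, Fintype.card_fin, nsmul_eq_mul]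
  have h5 : ∑ i : Fin r, ∑ j ∈ univ.erase i, (((bx A).filter (fun a => 1 < Od (F i) (F j) z y (a i) (a j))).card : ℝ) ≤
      r * (r * ((4 / z) * ∏ l, (A l : ℝ))) := by
    calc _ ≤ ∑ i : Fin r, ∑ _j ∈ univ.erase i, ((4 / z) * ∏ l, (A l : ℝ)) :=
          sum_le_sum fun i _ => sum_le_sum fun j hj => h2 i j (fun h' => (mem_erase.1 hj).1 h'.symm)
      _ ≤ ∑ _i : Fin r, (r * ((4 / z) * ∏ l, (A l : ℝ))) := by
          apply sum_le_sum
          intro i _
          rw [sum_const, nsmul_eq_mul]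
          apply mul_le_mul_of_nonneg_right _ (by positivity)
          have : (univ.erase i).card ≤ r := (card_erase_le).trans (by simp)
          exact_mod_cast this
      _ = _ := by rw [sum_const, card_univ, Fintype.card_fin, nsmul_eq_mul]
  refine (add_le_add h4 h5).trans (le_of_eq ?_)
  ring

end Pool.Agent.Y871.SZ
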