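import Mathlib
import Pool.Agent.Y871.SZ.Dens
import Pool.Agent.Y871.PT.Nine
import Pool.Agent.Y843.HS.Stm

/-! Progressions in the simultaneous prime values of almost all systems. -/

namespace Pool.Agent.Y871.SZ
open Finset Polynomial
open Pool.Agent.H373R2.T7 Pool.Agent.Y871.BD

/-- the arguments with prime values -/
def PP {r : ℕ} (F : Fin r → ℤ[X]) (k : Fin r → ℕ) (x : ℕ) : Finset ℕ :=
  (Icc 1 x).filter (fun n : ℕ => ∀ i, (vv F k i n).toNat.Prime)

/-- `n` lies in a progression of `m` terms in `S` with difference at most `D` -/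
def InP (S : Finset ℕ) (m : ℕ) (D : ℝ) (n : ℕ) : Prop :=
  ∃ a d : ℕ, 1 ≤ d ∧ (d : ℝ) ≤ D ∧ (∀ j < m, a + j * d ∈ S) ∧ ∃ j < m, n = a + j * d

lemma ev_pow (N : ℕ) (K : ℝ) (hK : 0 < K) : ∃ x0 : ℕ, ∀ x : ℕ, x0 ≤ x → K * Real.log x ^ N ≤ (x : ℝ) ^ (1 / 8 : ℝ) := by
  have hev := ((isLittleO_log_rpow_rpow_atTop (N : ℝ) (show (0 : ℝ) < 1 / 8 by norm_num)).bound
    (show (0 : ℝ) < 1 / K by positivity) |> (tendsto_natCast_atTop_atTop (R := ℝ)).eventually)
  obtain ⟨x0, h0⟩ := Filter.eventually_atTop.1 hev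
  refine ⟨x0, fun x hx => ?_⟩
  have h := h0 x hx
  have hL : 0 ≤ Real.log (x : ℝ) := Real.log_natCast_nonneg x
  rw [Real.norm_of_nonneg (by positivity), Real.norm_of_nonneg (by positivity), Real.rpow_natCast] at h
  calc K * Real.log x ^ N ≤ K * (1 / K * (x : ℝ) ^ (1 / 8 : ℝ)) := mul_le_mul_of_nonneg_left h hK.le
    _ = _ := by field_simp

/-- the classes -/
def Zc {r : ℕ} (F : Fin r → ℤ[X]) (k : Fin r → ℕ) (p : ℕ) : Finset ℕ :=
  (range p).filter (fun c : ℕ => (p : ℤ) ∣ ∏ i, vv F k i c)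

lemma Zc_card {r : ℕ} (F : Fin r → ℤ[X]) (k : Fin r → ℕ) (p : ℕ) (hp : p.Prime) :
    (Zc F k p).card = nuB (sysQ F (s1 r) k) p := by
  rw [Pool.Agent.Y871.BD.nuB_eq F k p hp]
  rfl

open Classical in
/-- the deterministic part: one system -/
theorem one_sys (hFIN : Pool.Agent.Y843.HS.S_FIN) {r : ℕ} (F : Fin r → ℤ[X]) (hd : ∀ i, 1 ≤ (F i).natDegree)
    (hl : ∀ i, 0 < (F i).leadingCoeff) (m : ℕ) (hm : 1 ≤ m) (c1 δ : ℝ) (hc1 : 0 < c1) (hδ : 0 < δ) :
    ∃ B' : ℕ, ∀ C : ℕ, B' ≤ C → ∃ N0 : ℕ, ∀ x : ℕ, N0 ≤ x → ∀ k : Fin r → ℕ,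
    (∀ p : ℕ, p.Prime → ∃ n : ℕ, ¬ (p : ℤ) ∣ ∏ i, vv F k i n) →
    (x : ℝ) / Real.log x ^ C ≤ (PP F k x).card →
    c1 * x * ∏ p ∈ Pz 0 ⌊(x : ℝ) ^ (1 / 4 : ℝ)⌋₊, (1 - (nuB (sysQ F (s1 r) k) p : ℝ) / p) ≤ (PP F k x).card →
    ∀ S ⊆ PP F k x, ((S.filter (fun n => ¬ InP S m (Real.log x ^ C) n)).card : ℝ) ≤ δ * (PP F k x).card := by
  obtain ⟨B', X0, h0⟩ := hFIN m (sysC F) (1 / 4) (δ / 2 * c1) (by norm_num) (by positivity)
  refine ⟨B', fun C hC => ?_⟩
  set Dg' : ℕ := ∑ i, (F i).natDegree with hDg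
  obtain ⟨N1, h1⟩ := ev_pow C (1 + 2 * Dg' / δ) (by positivity)
  obtain ⟨N2, h2⟩ := ev_L' 1
  refine ⟨max (max X0 N1) (max N2 1), fun x hx k hk hP1 hP2 S hS => ?_⟩
  have hx1 : X0 ≤ x := (le_max_left _ _).trans ((le_max_left _ _).trans hx)
  have hx2 : N1 ≤ x := (le_max_right _ _).trans ((le_max_left _ _).trans hx)
  have hx3 : N2 ≤ x := (le_max_left _ _).trans ((le_max_right _ _).trans hx)
  have hx4 : 1 ≤ x := (le_max_right _ _).trans ((le_max_right _ _).trans hx)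
  have hx0 : (0 : ℝ) < x := by exact_mod_cast hx4
  have hL := h2 x hx3
  have ht := h1 x hx2
  set L := Real.log (x : ℝ) with hLd
  have hL0 : 0 < L := by linarith
  set t : ℝ := (x : ℝ) ^ (1 / 8 : ℝ) with htd
  set y : ℕ := ⌊(x : ℝ) ^ (1 / 4 : ℝ)⌋₊ with hyd
  have hLC : 1 ≤ L ^ C := one_le_pow₀ hL
  have hDg0 : (0 : ℝ) ≤ 2 * Dg' / δ := by positivity
  have ht1 : L ^ C ≤ t := by nlinarith
  have ht2 : 2 * Dg' / δ ≤ t := by nlinarith
  have ht3 : 1 ≤ t := hLC.trans ht1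
  have ht0 : 0 < t := by linarith
  have hx8 : (x : ℝ) = t ^ 8 := by
    rw [htd, ← Real.rpow_natCast, ← Real.rpow_mul hx0.le]
    norm_num
  have hx4' : (x : ℝ) ^ (1 / 4 : ℝ) = t ^ 2 := by
    rw [htd, ← Real.rpow_natCast, ← Real.rpow_mul hx0.le]
    norm_num
  have hy : (y : ℝ) ≤ t ^ 2 := by
    rw [← hx4']
    exact Nat.floor_le (by positivity)
  by_contra hcon
  push Not at hcon
  set S' := S.filter (fun n => ¬ InP S m (L ^ C) n) with hS'
  set S'' := S'.filter (fun n => ∀ i, (y : ℤ) < vv F k i n) with hS''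
  -- few small values
  have hsm : (S'.card : ℝ) ≤ S''.card + Dg' * y := by
    have h5 : S' ⊆ S'' ∪ univ.biUnion (fun i : Fin r => (Icc 1 x).filter (fun n : ℕ => 1 ≤ (F i).eval (n : ℤ) + k i ∧
        (F i).eval (n : ℤ) + k i ≤ y)) := by
      intro n hn
      rw [mem_union]
      by_cases h6 : ∀ i, (y : ℤ) < vv F k i n
      · left
        exact mem_filter.2 ⟨hn, h6⟩
      · right
        push Not at h6
        obtain ⟨i, hi⟩ := h6
        rw [mem_biUnion]
        refine ⟨i, mem_univ _, ?_⟩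
        have h7 := hS (mem_filter.1 hn).1
        unfold PP at h7
        rw [mem_filter] at h7
        rw [mem_filter]
        refine ⟨h7.1, ?_, hi⟩
        have h8 := (h7.2 i).pos
        unfold vv at h8
        omega
    have h6 := (card_le_card h5).trans (card_union_le _ _)
    have h7 : (univ.biUnion (fun i : Fin r => (Icc 1 x).filter (fun n : ℕ => 1 ≤ (F i).eval (n : ℤ) + k i ∧
        (F i).eval (n : ℤ) + k i ≤ y))).card ≤ Dg' * y := by
      refine card_biUnion_le.trans ?_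
      rw [hDg, sum_mul]
      exact sum_le_sum fun i _ => small_vals (F i) (hd i) (k i) x y
    have h8 : S'.card ≤ S''.card + Dg' * y := by omega
    exact_mod_cast h8
  have hbig : δ / 2 * (PP F k x).card ≤ S''.card := by
    have h5 : (Dg' : ℝ) * y ≤ δ / 2 * (PP F k x).card := by
      have h6 : t ^ 7 ≤ (PP F k x).card := by
        refine le_trans ?_ hP1
        rw [hx8, le_div_iff₀ (by positivity)]
        calc t ^ 7 * L ^ C ≤ t ^ 7 * t := mul_le_mul_of_nonneg_left ht1 (by positivity)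
          _ = t ^ 8 := by ring
      have h7 : (Dg' : ℝ) ≤ δ / 2 * t := by
        rw [div_le_iff₀ hδ] at ht2
        linarith
      calc (Dg' : ℝ) * y ≤ (δ / 2 * t) * t ^ 2 := mul_le_mul h7 hy (Nat.cast_nonneg _) (by positivity)
        _ = δ / 2 * t ^ 3 := by ring
        _ ≤ δ / 2 * t ^ 7 := mul_le_mul_of_nonneg_left (pow_le_pow_right₀ ht3 (by norm_num)) (by positivity)
        _ ≤ _ := mul_le_mul_of_nonneg_left h6 (by positivity)
    have h6 : δ * (PP F k x).card = δ / 2 * (PP F k x).card + δ / 2 * (PP F k x).card := by ring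
    rw [h6] at hcon
    linarith
  have hSx : S'' ⊆ Ioc 0 (0 + x) := by
    intro n hn
    have h5 := hS (mem_filter.1 (mem_filter.1 hn).1).1
    unfold PP at h5
    rw [mem_filter, mem_Icc] at h5
    rw [mem_Ioc]
    omega
  have hfin := h0 x 0 hx1 (Zc F k) (fun p hp _ => by
      rw [Zc_card F k p hp]
      refine ⟨(sysQ_per F hd hl (s1 r) (fun i => Or.inl rfl) k).few p hp, ?_, ?_⟩
      · have h5 := nuB_le (sysQ F (s1 r) k) p
        rcases Nat.lt_or_ge (nuB (sysQ F (s1 r) k) p) p with h6 | h6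
        · exact h6
        · exfalso
          obtain ⟨n, hn⟩ := hk p hp
          apply hn
          have h7 : ((range p).filter (fun n : ℕ => sysQ F (s1 r) k p n)) = range p := by
            apply eq_of_subset_of_card_le (filter_subset _ _)
            rw [card_range]
            unfold nuB at h6
            exact h6
          have h8 : n % p ∈ (range p).filter (fun n : ℕ => sysQ F (s1 r) k p n) := by
            rw [h7, mem_range]
            exact Nat.mod_lt _ hp.pos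
          have h9 := (mem_filter.1 h8).2
          rw [← (sysQ_per F hd hl (s1 r) (fun i => Or.inl rfl) k).per p n] at h9
          exact (sysQ_iff F k p n hp).1 h9
      · intro c hc
        exact mem_range.1 (mem_filter.1 hc).1) S'' hSx (fun n hn p hp hpx hmem => by
      have h5 := (mem_filter.1 hmem).2
      rw [← sysQ_iff F k p (n % p) hp, ← (sysQ_per F hd hl (s1 r) (fun i => Or.inl rfl) k).per p n,
        sysQ_iff F k p n hp] at h5
      obtain ⟨i, _, hi⟩ := ((Nat.prime_iff_prime_int.1 hp).dvd_finsetProd_iff (fun i => vv F k i n)).1 h5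
      have h6 := (mem_filter.1 hn).2 i
      have h7 := hS (mem_filter.1 (mem_filter.1 hn).1).1
      unfold PP at h7
      rw [mem_filter] at h7
      have h8 := h7.2 i
      have h9 : ((vv F k i n).toNat : ℤ) = vv F k i n := Int.toNat_of_nonneg (by omega)
      rw [← h9, Int.natCast_dvd_natCast, Nat.prime_dvd_prime_iff_eq hp h8] at hi
      have h10 : p ≤ y := Nat.le_floor hpx
      omega) (by
      have h5 : Pool.Agent.Y843.HS.VV (Zc F k) 0 ⌊(x : ℝ) ^ (1 / 4 : ℝ)⌋₊ =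
          ∏ p ∈ Pz 0 y, (1 - (nuB (sysQ F (s1 r) k) p : ℝ) / p) := by
        unfold Pool.Agent.Y843.HS.VV
        apply prod_congr rfl
        intro p hp
        rw [Zc_card F k p (mem_filter.1 hp).2]
      rw [h5]
      calc δ / 2 * c1 * x * ∏ p ∈ Pz 0 y, (1 - (nuB (sysQ F (s1 r) k) p : ℝ) / p)
          = δ / 2 * (c1 * x * ∏ p ∈ Pz 0 y, (1 - (nuB (sysQ F (s1 r) k) p : ℝ) / p)) := by ring
        _ ≤ δ / 2 * (PP F k x).card := mul_le_mul_of_nonneg_left hP2 (by positivity)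
        _ ≤ _ := hbig)
  obtain ⟨a, d, hd1, hd2, hd3⟩ := hfin
  have ha := hd3 0 hm
  rw [zero_mul, add_zero] at ha
  have ha' := (mem_filter.1 ha).1
  rw [hS', mem_filter] at ha'
  apply ha'.2
  refine ⟨a, d, hd1, hd2.trans (pow_le_pow_right₀ hL hC), fun j hj => ?_, 0, hm, by ring⟩
  exact (mem_filter.1 (mem_filter.1 (hd3 j hj)).1).1

end Pool.Agent.Y871.SZ
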