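import Mathlib
import Pool.Agent.Y871.SZ.Main

/-! Progressions in the simultaneous prime values of almost all systems: the final theorem. -/

namespace Pool.Agent.Y871.SZ
open Finset Polynomial
open Pool.Agent.H373R2.T7 Pool.Agent.Y871.BD

lemma pos_close {k : ℕ} (F : Fin k → ℤ[X]) (hd : ∀ i, 1 ≤ (F i).natDegree) (hl : ∀ i, 0 < (F i).leadingCoeff) :
    ∃ n0 : ℕ, ∀ (a : Fin k → ℕ), (∀ i, 1 ≤ a i) → ∀ x : ℕ, |(x : ℝ) - posCount F (s1 k) a x| ≤ n0 := by
  classical
  choose m0 hm0 using fun i => ev_mono (F i) (hd i) (hl i)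
  refine ⟨univ.sup m0, fun a ha x => ?_⟩
  set n0 := univ.sup m0 with hn0
  have h1 : posCount F (s1 k) a x ≤ x := by
    unfold posCount
    exact (card_filter_le _ _).trans (by simp)
  have h2 : Icc 1 x ⊆ (Icc 1 x).filter (fun n => ∀ i, 1 ≤ vl F (s1 k) a i n) ∪ range n0 := by
    intro n hn
    rw [mem_union, mem_filter, mem_range]
    by_cases h3 : n < n0
    · exact Or.inr h3
    · left
      refine ⟨hn, fun i => ?_⟩
      have h4 : m0 i ≤ n := (le_sup (f := m0) (mem_univ i)).trans (not_lt.1 h3)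
      have h5 := (hm0 i).1 n h4
      unfold vl s1
      have h6 : (1 : ℤ) ≤ a i := by exact_mod_cast ha i
      linarith
  have h3 : x ≤ posCount F (s1 k) a x + n0 := by
    have := (card_le_card h2).trans (card_union_le _ _)
    rw [Nat.card_Icc, Nat.add_sub_cancel, card_range] at this
    exact this
  have h1' : (posCount F (s1 k) a x : ℝ) ≤ x := by exact_mod_cast h1
  have h3' : (x : ℝ) ≤ posCount F (s1 k) a x + n0 := by exact_mod_cast h3
  rw [abs_le]
  constructor <;> linarith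

lemma PP_card {r : ℕ} (F : Fin r → ℤ[X]) (k : Fin r → ℕ) (x : ℕ) : (PP F k x).card = prCount F (s1 r) k x := by
  unfold PP prCount
  simp only [vl_eq]

lemma Sg_ne {r : ℕ} (F : Fin r → ℤ[X]) (hd : ∀ i, 1 ≤ (F i).natDegree) (hl : ∀ i, 0 < (F i).leadingCoeff)
    (k : Fin r → ℕ) (z : ℕ) (hk : ∀ p : ℕ, p.Prime → ∃ n : ℕ, ¬ (p : ℤ) ∣ ∏ i, vv F k i n) : Sg F z k ≠ 0 := by
  classical
  unfold Sg
  have := Vz_pos z
  apply mul_ne_zero (by positivity)
  rw [prod_ne_zero_iff]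
  intro p hp
  have hpp := (mem_pz.1 hp).2
  have hp0 : (0 : ℝ) < p := by exact_mod_cast hpp.pos
  have h6 : nuB (sysQ F (s1 r) k) p < p := by
    have h5 := nuB_le (sysQ F (s1 r) k) p
    rcases Nat.lt_or_ge (nuB (sysQ F (s1 r) k) p) p with h6 | h6
    · exact h6
    · exfalso
      obtain ⟨n, hn⟩ := hk p hpp
      apply hn
      have h7 : ((range p).filter (fun n : ℕ => sysQ F (s1 r) k p n)) = range p := by
        apply eq_of_subset_of_card_le (filter_subset _ _)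
        rw [card_range]
        unfold nuB at h6
        exact h6
      have h8 : n % p ∈ (range p).filter (fun n : ℕ => sysQ F (s1 r) k p n) := by
        rw [h7, mem_range]
        exact Nat.mod_lt _ hpp.pos
      have h9 := (mem_filter.1 h8).2
      rw [← (sysQ_per F hd hl (s1 r) (fun i => Or.inl rfl) k).per p n] at h9
      exact (sysQ_iff F k p n hpp).1 h9
  have h7 : (nuB (sysQ F (s1 r) k) p : ℝ) / p < 1 := by
    rw [div_lt_one hp0]
    exact_mod_cast h6
  linarith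

/-- the good shift vectors -/
def GoodK {r : ℕ} (F : Fin r → ℤ[X]) (m : ℕ) (δ : ℝ) (C x : ℕ) (k : Fin r → ℕ) : Prop :=
  (x : ℝ) / Real.log x ^ C ≤ (PP F k x).card ∧
  ∀ S ⊆ PP F k x, ∀ T ⊆ S, (∀ n ∈ T, ¬ InP S m (Real.log x ^ C) n) → (T.card : ℝ) ≤ δ * (PP F k x).card

open Classical in
/-- **the main theorem** -/
theorem sz_main (hFIN : Pool.Agent.Y843.HS.S_FIN) {r : ℕ} (F : Fin r → ℤ[X]) (hd : ∀ i, 1 ≤ (F i).natDegree)
    (hl : ∀ i, 0 < (F i).leadingCoeff) (B : ℕ) (hB : 1 ≤ B) (U m : ℕ) (hm : 1 ≤ m) (δ : ℝ) (hδ : 0 < δ) :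
    ∃ C N0 : ℕ, ∀ x : ℕ, N0 ≤ x → ∀ A : Fin r → ℕ,
      (∀ i, A i ≤ B * x ^ (F i).natDegree ∧ x ^ (F i).natDegree ≤ B * A i) →
      (((bx A).filter (fun k => (∀ p : ℕ, p.Prime → ∃ n : ℕ, ¬ (p : ℤ) ∣ ∏ i, vv F k i n) ∧
        ¬ GoodK F m δ C x k)).card : ℝ) ≤ (∏ i, (A i : ℝ)) / Real.log x ^ U := by
  obtain ⟨n0, hn0⟩ := pos_close F hd hl
  obtain ⟨B0, h0⟩ := sys_unweighted F hd hl (s1 r) (fun i => Or.inl rfl) B hB (U + 1) n0 (1 / 2) (by norm_num) (by norm_num)
  set E : ℕ := B0 + U + 3 with hE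
  obtain ⟨N1, h1⟩ := h0 E
  obtain ⟨N2, h2⟩ := Pool.Agent.Y871.PT.z_ok (B0 + U + 2) E (by omega)
  obtain ⟨N3, h3⟩ := Vz_inv_small E
  obtain ⟨K, hK, hKd⟩ := dens_up F
  set dd : ℝ := ∏ i, ((F i).natDegree : ℝ) with hdd
  have hdd0 : 0 < dd := prod_pos fun i _ => by exact_mod_cast (hd i)
  set c1 : ℝ := 1 / (2 * dd * K * 8 ^ r) with hc1
  have hc10 : 0 < c1 := by positivity
  obtain ⟨B', h4⟩ := one_sys hFIN F hd hl m hm c1 δ hc10 hδ
  set m' : ℕ := sysC F with hm'
  have hm1 : 1 ≤ m' := by rw [hm']; unfold sysC; omega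
  set clow : ℝ := (1 / (3 * m' : ℝ)) ^ (3 * m') * Real.exp (-(2 * (m' : ℝ) ^ 2)) with hclow
  have hclow0 : 0 < clow := by positivity
  set C : ℕ := max B' (r + m' + 1) with hC
  obtain ⟨N4, h5⟩ := h4 C (le_max_left _ _)
  set K2 : ℝ := r * (2 * (sysC F : ℝ) ^ 2) + 4 * r ^ 2 with hK2
  have hK20 : 0 ≤ K2 := by positivity
  obtain ⟨N5, h6⟩ := ev_L' (2 + K2 + 2 * dd / clow)
  obtain ⟨N6, h7⟩ := ev_pow E (3 + B) (by positivity)
  refine ⟨C, max (max (max N1 N2) (max N3 N4)) (max (max N5 N6) 1), fun x hx A hA => ?_⟩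
  have hxa := (le_max_left _ _).trans hx
  have hxb := (le_max_right _ _).trans hx
  have hx1 : N1 ≤ x := (le_max_left _ _).trans ((le_max_left _ _).trans hxa)
  have hx2 : N2 ≤ x := (le_max_right _ _).trans ((le_max_left _ _).trans hxa)
  have hx3 : N3 ≤ x := (le_max_left _ _).trans ((le_max_right _ _).trans hxa)
  have hx4 : N4 ≤ x := (le_max_right _ _).trans ((le_max_right _ _).trans hxa)
  have hx5 : N5 ≤ x := (le_max_left _ _).trans ((le_max_left _ _).trans hxb)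
  have hx6 : N6 ≤ x := (le_max_right _ _).trans ((le_max_left _ _).trans hxb)
  have hx7 : 1 ≤ x := (le_max_right _ _).trans hxb
  have hx0 : (0 : ℝ) < x := by exact_mod_cast hx7
  obtain ⟨z1, z2⟩ := h2 x hx2
  have hL := h6 x hx5
  have ht := h7 x hx6
  set L := Real.log (x : ℝ) with hLd
  set z : ℕ := ⌊L ^ E⌋₊ with hz
  set t : ℝ := (x : ℝ) ^ (1 / 8 : ℝ) with htd
  have q1 : 0 < 2 * dd / clow := by positivity
  have hL2 : 2 ≤ L := by linarith
  have hL0 : 0 < L := by linarith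
  have hL1 : 1 ≤ L := by linarith
  have hLE : 1 ≤ L ^ E := one_le_pow₀ hL1
  have hBr : (1 : ℝ) ≤ B := by exact_mod_cast hB
  have ht1 : L ^ E ≤ t := by nlinarith
  have ht2 : 3 + (B : ℝ) ≤ t := by nlinarith
  have ht0 : 0 < t := by linarith
  have hx8 : (x : ℝ) = t ^ 8 := by
    rw [htd, ← Real.rpow_natCast, ← Real.rpow_mul hx0.le]
    norm_num
  have hx4' : (x : ℝ) ^ (1 / 4 : ℝ) = t ^ 2 := by
    rw [htd, ← Real.rpow_natCast, ← Real.rpow_mul hx0.le]
    norm_num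
  set y : ℕ := ⌊(x : ℝ) ^ (1 / 4 : ℝ)⌋₊ with hyd
  have hy : (y : ℝ) ≤ t ^ 2 := by
    rw [← hx4']
    exact Nat.floor_le (by positivity)
  have hyt : t ≤ y := by
    have h8 := Nat.sub_one_lt_floor ((x : ℝ) ^ (1 / 4 : ℝ))
    rw [← hyd, hx4'] at h8
    nlinarith
  have hy3 : 3 ≤ y := by
    have : (3 : ℝ) ≤ y := by linarith
    exact_mod_cast this
  have hzL : L ^ (B0 + U + 2) ≤ z := z1
  have hz0 : (1 : ℝ) ≤ z := (one_le_pow₀ hL1).trans hzL
  have hz1 : 1 ≤ z := by exact_mod_cast hz0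
  have hzy : z ≤ y := by
    have : (z : ℝ) ≤ y := z2.trans (ht1.trans hyt)
    exact_mod_cast this
  have hly : L / 8 ≤ Real.log y := by
    have h8 := Real.log_le_log ht0 hyt
    rw [htd, Real.log_rpow hx0] at h8
    linarith
  have hAy : ∀ i, y ^ 2 * z ≤ A i := by
    intro i
    have h8 : (x : ℝ) ≤ B * A i := by
      have h9 : x ≤ B * A i := by
        refine le_trans ?_ (hA i).2
        exact Nat.le_self_pow (by have := hd i; omega) x
      exact_mod_cast h9
    have h9 : ((y ^ 2 * z : ℕ) : ℝ) * B ≤ x := by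
      push_cast
      calc (y : ℝ) ^ 2 * z * B ≤ (t ^ 2) ^ 2 * t * t := by
            apply mul_le_mul _ (by linarith) (by positivity) (by positivity)
            apply mul_le_mul _ (z2.trans ht1) (by positivity) (by positivity)
            exact pow_le_pow_left₀ (Nat.cast_nonneg _) hy 2
        _ = t ^ 6 := by ring
        _ ≤ t ^ 8 := pow_le_pow_right₀ (by linarith) (by norm_num)
        _ = x := hx8.symm
    have h10 : ((y ^ 2 * z : ℕ) : ℝ) * B ≤ A i * B := by linarith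
    have h11 : ((y ^ 2 * z : ℕ) : ℝ) ≤ A i := le_of_mul_le_mul_right h10 (by linarith)
    exact_mod_cast h11
  have hprod : (0 : ℝ) ≤ ∏ l, (A l : ℝ) := prod_nonneg fun _ _ => Nat.cast_nonneg _
  have hzB0 : L ^ B0 ≤ (z : ℝ) := (pow_le_pow_right₀ hL1 (by omega)).trans hzL
  obtain ⟨S0, hS0, hS1⟩ := h1 x hx1 A hA z hzB0 z2
  have hbad := bad_few F hd hl A z y hz1 (by omega) hAy
  have hV := h3 x hx3 z hz1 z2
  -- the good ones
  have hgood : ∀ k ∈ bx A, k ∉ S0 → Gd F z y k → (∀ p : ℕ, p.Prime → ∃ n : ℕ, ¬ (p : ℤ) ∣ ∏ i, vv F k i n) →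
      GoodK F m δ C x k := by
    intro k hk hkS hkG hkp
    have hk1 : ∀ i, 1 ≤ k i := fun i => (mem_Icc.1 (Fintype.mem_piFinset.1 hk i)).1
    have hSg := Sg_ne F hd hl k z hkp
    have hSg0 : 0 < Sg F z k := lt_of_le_of_ne (Sg_nonneg F z k) (Ne.symm hSg)
    have h8 := (hS1 k hk hkS x (hn0 k hk1 x) le_rfl).2 hSg (by linarith)
    have h9 := (abs_le.1 h8).1
    have hmain : 1 / 2 * (Sg F z k * x / (dd * L ^ r)) ≤ (PP F k x).card := by
      rw [PP_card]
      have e1 : ((Vz z)⁻¹) ^ r * (∏ p ∈ pz z, (1 - (nuB (sysQ F (s1 r) k) p : ℝ) / p)) = Sg F z k := rfl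
      rw [e1] at h9
      have e2 : (∏ i, ((F i).natDegree : ℝ)) * Real.log x ^ r = dd * L ^ r := rfl
      rw [e2] at h9
      linarith
    have hlow := sing_low (k := r) (sysQ F (s1 r) k) m' hm1 (sysQ_per F hd hl (s1 r) (fun i => Or.inl rfl) k) z L hL1 hV hSg
    have hlow' : clow / L ^ m' ≤ Sg F z k := hlow
    have hP1 : (x : ℝ) / L ^ C ≤ (PP F k x).card := by
      refine le_trans ?_ hmain
      have h10 : (x : ℝ) / L ^ C ≤ x / L ^ (r + m' + 1) :=
        div_le_div_of_nonneg_left hx0.le (by positivity) (pow_le_pow_right₀ hL1 (le_max_right _ _))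
      refine h10.trans ?_
      have h11 : 2 * dd ≤ clow * L := by
        have : 2 * dd / clow ≤ L := by linarith
        rw [div_le_iff₀ hclow0] at this
        linarith
      have h12 : x / L ^ (r + m' + 1) ≤ 1 / 2 * (clow / L ^ m' * x / (dd * L ^ r)) := by
        rw [show r + m' + 1 = (r + m') + 1 from rfl, pow_succ, pow_add]
        have e3 : 1 / 2 * (clow / L ^ m' * x / (dd * L ^ r)) = (x / (L ^ r * L ^ m')) * (clow / (2 * dd)) := by
          field_simp
        have e4 : x / (L ^ r * L ^ m' * L) = (x / (L ^ r * L ^ m')) * (1 / L) := by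
          field_simp
        rw [e3, e4]
        apply mul_le_mul_of_nonneg_left _ (by positivity)
        rw [div_le_div_iff₀ hL0 (by positivity)]
        linarith
      refine h12.trans ?_
      apply mul_le_mul_of_nonneg_left _ (by norm_num)
      apply div_le_div_of_nonneg_right _ (by positivity)
      exact mul_le_mul_of_nonneg_right hlow' hx0.le
    have hP2 : c1 * x * ∏ p ∈ Pz 0 y, (1 - (nuB (sysQ F (s1 r) k) p : ℝ) / p) ≤ (PP F k x).card := by
      refine le_trans ?_ hmain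
      have h10 := hKd k z y hzy hy3 hkG
      have h11 : Sg F z k / Real.log y ^ r ≤ Sg F z k * 8 ^ r / L ^ r := by
        have h12 : (L / 8) ^ r ≤ Real.log y ^ r := pow_le_pow_left₀ (by positivity) hly _
        calc Sg F z k / Real.log y ^ r ≤ Sg F z k / (L / 8) ^ r :=
              div_le_div_of_nonneg_left hSg0.le (by positivity) h12
          _ = _ := by rw [div_pow]; field_simp
      calc c1 * x * ∏ p ∈ Pz 0 y, (1 - (nuB (sysQ F (s1 r) k) p : ℝ) / p)
          ≤ c1 * x * (K * (Sg F z k * 8 ^ r / L ^ r)) :=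
            mul_le_mul_of_nonneg_left (h10.trans (mul_le_mul_of_nonneg_left h11 hK.le)) (by positivity)
        _ = 1 / 2 * (Sg F z k * x / (dd * L ^ r)) := by
            rw [hc1]
            field_simp
    refine ⟨hP1, fun S hS T hT hTn => ?_⟩
    have h10 := h5 x hx4 k hkp hP1 hP2 S hS
    refine le_trans ?_ h10
    have h11 : T ⊆ S.filter (fun n => ¬ InP S m (L ^ C) n) := fun n hn => mem_filter.2 ⟨hT hn, hTn n hn⟩
    exact_mod_cast card_le_card h11
  have hsub : (bx A).filter (fun k => (∀ p : ℕ, p.Prime → ∃ n : ℕ, ¬ (p : ℤ) ∣ ∏ i, vv F k i n) ∧ ¬ GoodK F m δ C x k) ⊆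
      S0 ∪ (bx A).filter (fun a => ¬ Gd F z y a) := by
    intro k hk
    rw [mem_filter] at hk
    rw [mem_union, mem_filter]
    by_contra hcon
    push Not at hcon
    exact hk.2.2 (hgood k hk.1 hcon.1 (hcon.2 hk.1) hk.2.1)
  have h8 := (card_le_card hsub).trans (card_union_le _ _)
  have h9 : (((bx A).filter (fun k => (∀ p : ℕ, p.Prime → ∃ n : ℕ, ¬ (p : ℤ) ∣ ∏ i, vv F k i n) ∧
      ¬ GoodK F m δ C x k)).card : ℝ) ≤ S0.card + (((bx A).filter (fun a => ¬ Gd F z y a)).card : ℝ) := by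
    exact_mod_cast h8
  refine h9.trans ?_
  have h10 : K2 / (z : ℝ) ≤ 1 / L ^ (U + 1) * (K2 / L) := by
    have h11 : L ^ (U + 1) * L ≤ z := by
      calc L ^ (U + 1) * L = L ^ (U + 2) := by rw [← pow_succ]
        _ ≤ L ^ (B0 + U + 2) := pow_le_pow_right₀ hL1 (by omega)
        _ ≤ z := hzL
    calc K2 / (z : ℝ) ≤ K2 / (L ^ (U + 1) * L) := div_le_div_of_nonneg_left hK20 (by positivity) h11
      _ = _ := by field_simp
  have h12 : K2 / L ≤ 1 := by
    rw [div_le_one hL0]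
    linarith
  have h13 : K2 / (z : ℝ) ≤ 1 / L ^ (U + 1) := by
    refine h10.trans ?_
    exact mul_le_of_le_one_right (by positivity) h12
  calc (S0.card : ℝ) + (((bx A).filter (fun a => ¬ Gd F z y a)).card : ℝ)
      ≤ (∏ i, (A i : ℝ)) / L ^ (U + 1) + (K2 / z) * ∏ l, (A l : ℝ) := add_le_add hS0 hbad
    _ ≤ (∏ i, (A i : ℝ)) / L ^ (U + 1) + (1 / L ^ (U + 1)) * ∏ l, (A l : ℝ) :=
        add_le_add le_rfl (mul_le_mul_of_nonneg_right h13 hprod)
    _ = (2 / L) * ((∏ i, (A i : ℝ)) / L ^ U) := by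
        rw [pow_succ]
        field_simp
        ring
    _ ≤ 1 * ((∏ i, (A i : ℝ)) / L ^ U) := by
        apply mul_le_mul_of_nonneg_right _ (by positivity)
        rw [div_le_one hL0]
        exact hL2
    _ = _ := one_mul _

end Pool.Agent.Y871.SZ
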